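import Pool.Agent.P.MP_1fa774_co.Poincare

namespace Pool.Agent.P.MP_405cad_co

open Finset Pool.Agent.P.MP_1fa774_co

variable {n : ℕ}

/-- uniform average on the cube -/
noncomputable abbrev E (h : (Fin n → Bool) → ℝ) : ℝ := M h 0

lemma E_eq (h : (Fin n → Bool) → ℝ) : E h = (∑ x, h x) / 2 ^ n := by
  unfold E M
  simp_rw [wt_zero]
  rw [← Finset.mul_sum, Fintype.card_fin]
  ring

lemma E_mono {g h : (Fin n → Bool) → ℝ} (H : ∀ x, g x ≤ h x) : E g ≤ E h :=
  M_mono (by simp) H

lemma E_comm (F : (Fin n → Bool) → (Fin n → Bool) → ℝ) :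
    E (fun u => E (fun y => F u y)) = E (fun y => E (fun u => F u y)) := by
  simp_rw [E_eq, ← Finset.sum_div]
  rw [Finset.sum_comm]

lemma E_sub (g h : (Fin n → Bool) → ℝ) : E (fun x => g x - h x) = E g - E h := by
  simp_rw [E_eq]
  rw [Finset.sum_sub_distrib, sub_div]

lemma bessel2 {k : ℕ} : ∀ (g : (Fin k → Bool) → ℝ), W1 g ≤ Vr g := by
  induction k with
  | zero =>
    intro g
    rw [Vr_zero]
    simp [W1]
  | succ k ih =>
    intro g
    rw [W1_succ, Vr_succ]
    have h1 := ih (ev g)
    have h2 := Vr_nonneg (od g)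
    unfold Vr at h2
    linarith

lemma E_lin_sq {N : ℕ} (c : Fin N → ℝ) :
    E (fun z : Fin N → Bool => (∑ a, c a * sg (z a)) ^ 2) = ∑ a, c a * c a := by
  induction N with
  | zero => simp [M_const]
  | succ N ih =>
    unfold E
    rw [M_sq_succ, Fin.sum_univ_succ, ← ih (fun a => c a.succ), add_comm]
    congr 1
    · rw [← M_const (c 0 * c 0) (0 : Fin N → ℝ)]
      congr 1
      ext y
      simp only [od, Fin.sum_univ_succ, Fin.cons_zero, Fin.cons_succ, sg_true, sg_false]
      ring
    · unfold E
      congr 1
      ext y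
      simp only [ev, Fin.sum_univ_succ, Fin.cons_zero, Fin.cons_succ, sg_true, sg_false]
      ring

/-- flip a coordinate -/
def fl (x : Fin n → Bool) (i : Fin n) : Fin n → Bool := Function.update x i (!(x i))

/-- pivotality indicator -/
def piv (g : (Fin n → Bool) → Bool) (i : Fin n) (x : Fin n → Bool) : ℝ :=
  if g (fl x i) ≠ g x then 1 else 0

/-- influence -/
noncomputable def infl (g : (Fin n → Bool) → Bool) (i : Fin n) : ℝ := E (piv g i)

/-- sensitivity at a point -/
def sens (g : (Fin n → Bool) → Bool) (x : Fin n → Bool) : ℝ := ∑ i, piv g i x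

/-- total influence -/
noncomputable def II (g : (Fin n → Bool) → Bool) : ℝ := ∑ i, infl g i

/-- merge two points along a set -/
def mg (U : Finset (Fin n)) (z x : Fin n → Bool) : Fin n → Bool :=
  fun i => if i ∈ U then z i else x i

/-- restriction -/
def rs (g : (Fin n → Bool) → Bool) (U : Finset (Fin n)) (z : Fin n → Bool) :
    (Fin n → Bool) → Bool := fun x => g (mg U z x)

/-- variance of the signed function -/
noncomputable def VV (g : (Fin n → Bool) → Bool) : ℝ := 1 - (E (fun x => sg (g x))) ^ 2

lemma piv_nonneg (g : (Fin n → Bool) → Bool) (i : Fin n) (x : Fin n → Bool) : 0 ≤ piv g i x := by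
  unfold piv; split_ifs <;> norm_num

lemma piv_le_one (g : (Fin n → Bool) → Bool) (i : Fin n) (x : Fin n → Bool) : piv g i x ≤ 1 := by
  unfold piv; split_ifs <;> norm_num

lemma infl_nonneg (g : (Fin n → Bool) → Bool) (i : Fin n) : 0 ≤ infl g i :=
  M_zero_nonneg (piv_nonneg g i)

lemma II_eq (g : (Fin n → Bool) → Bool) : II g = E (sens g) := by
  unfold II infl
  rw [← M_sum]
  rfl

lemma abs_E_sg_le (g : (Fin n → Bool) → Bool) : |E (fun x => sg (g x))| ≤ 1 :=
  abs_M_le (by simp) (fun y => (abs_sg _).le)

lemma VV_nonneg (g : (Fin n → Bool) → Bool) : 0 ≤ VV g := by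
  have := abs_E_sg_le g
  have h2 := sq_abs (E (fun x => sg (g x)))
  unfold VV
  nlinarith [abs_nonneg (E (fun x => sg (g x)))]

lemma VV_le_one (g : (Fin n → Bool) → Bool) : VV g ≤ 1 := by
  unfold VV
  nlinarith [sq_nonneg (E (fun x => sg (g x)))]

lemma E_mg (U : Finset (Fin n)) (H : (Fin n → Bool) → ℝ) :
    E (fun z => E (fun x => H (mg U z x))) = E H := by
  have hinv : Function.Involutive
      (fun q : (Fin n → Bool) × (Fin n → Bool) => (mg U q.1 q.2, mg U q.2 q.1)) := by
    intro q
    ext i <;> simp only [mg] <;> split_ifs <;> rfl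
  have h1 := Equiv.sum_comp hinv.toPerm (fun q => H q.1)
  simp only [Function.Involutive.coe_toPerm] at h1
  rw [Fintype.sum_prod_type, Fintype.sum_prod_type] at h1
  simp_rw [E_eq, ← Finset.sum_div]
  rw [h1]
  simp only [Finset.sum_const, Finset.card_univ, Fintype.card_fun, Fintype.card_bool,
    Fintype.card_fin, nsmul_eq_mul, Nat.cast_pow, Nat.cast_ofNat]
  rw [← Finset.mul_sum]
  field_simp

lemma rs_mono {g : (Fin n → Bool) → Bool} (hg : Monotone g) (U : Finset (Fin n))
    (z : Fin n → Bool) : Monotone (rs g U z) := by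
  intro x y hxy
  apply hg
  intro i
  simp only [mg]
  split_ifs
  · exact le_rfl
  · exact hxy i

lemma piv_rs (g : (Fin n → Bool) → Bool) (U : Finset (Fin n)) (z x : Fin n → Bool) (i : Fin n) :
    piv (rs g U z) i x = if i ∈ U then 0 else piv g i (mg U z x) := by
  split_ifs with h
  · have : mg U z (fl x i) = mg U z x := by
      ext l
      simp only [mg, fl]
      split_ifs with hl
      · rfl
      · rw [Function.update_of_ne]
        rintro rfl
        exact hl h
    simp [piv, rs, this]
  · have : mg U z (fl x i) = fl (mg U z x) i := by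
      ext l
      by_cases hl : l = i
      · subst hl
        simp [mg, fl, h]
      · simp [mg, fl, Function.update_of_ne hl]
    simp [piv, rs, this]

lemma sens_rs_le (g : (Fin n → Bool) → Bool) (U : Finset (Fin n)) (z x : Fin n → Bool) :
    sens (rs g U z) x ≤ sens g (mg U z x) := by
  unfold sens
  apply Finset.sum_le_sum
  intro i _
  rw [piv_rs]
  split_ifs
  · exact piv_nonneg _ _ _
  · exact le_rfl

lemma E_infl_rs (g : (Fin n → Bool) → Bool) (U : Finset (Fin n)) (i : Fin n) :
    E (fun z => infl (rs g U z) i) = if i ∈ U then 0 else infl g i := by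
  unfold infl
  have : ∀ z, piv (rs g U z) i = fun x => if i ∈ U then 0 else piv g i (mg U z x) := by
    intro z; ext x; exact piv_rs g U z x i
  simp_rw [this]
  split_ifs
  · simp [M_const]
  · exact E_mg U (piv g i)

lemma II_split (g : (Fin n → Bool) → Bool) (U : Finset (Fin n)) :
    II g = ∑ i ∈ U, infl g i + E (fun z => II (rs g U z)) := by
  unfold II
  rw [show E (fun z => ∑ i, infl (rs g U z) i) = ∑ i, E (fun z => infl (rs g U z) i) from
    M_sum _ _ _]
  simp_rw [E_infl_rs]
  rw [← Finset.sum_ite_mem_eq U, ← Finset.sum_add_distrib]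
  apply Finset.sum_congr rfl
  intro i _
  split_ifs <;> simp

lemma Dd_sg {g : (Fin n → Bool) → Bool} (hg : Monotone g) (i : Fin n) (y : Fin n → Bool) :
    Dd i (fun x => sg (g x)) y = piv g i y := by
  have hle : g (Function.update y i false) ≤ g (Function.update y i true) := by
    apply hg
    intro l
    by_cases hl : l = i
    · subst hl; simp
    · simp [Function.update_of_ne hl]
  unfold Dd piv fl
  cases h : y i
  · have e : Function.update y i false = y := by rw [← h]; simp
    rw [e] at hle ⊢
    simp only [Bool.not_false]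
    revert hle
    cases g y <;> cases g (Function.update y i true) <;> simp
  · have e : Function.update y i true = y := by rw [← h]; simp
    rw [e] at hle ⊢
    simp only [Bool.not_true]
    revert hle
    cases g y <;> cases g (Function.update y i false) <;> simp

lemma VV_split {g : (Fin n → Bool) → Bool} (hg : Monotone g) (U : Finset (Fin n)) :
    E (fun z => VV (rs g U z)) ≤ VV g - ∑ i ∈ U, infl g i ^ 2 := by
  let h : (Fin n → Bool) → ℝ := fun z => E (fun x => sg (g (mg U z x)))
  have h1 : E h = E (fun x => sg (g x)) := E_mg U (fun x => sg (g x))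
  have h2 : ∀ i ∈ U, E (Dd i h) = infl g i := by
    intro i hi
    have e : ∀ z, Dd i h z = E (fun x => piv g i (mg U z x)) := by
      intro z
      have e1 : ∀ b x, mg U (Function.update z i b) x = Function.update (mg U z x) i b := by
        intro b x
        ext l
        by_cases hl : l = i
        · subst hl; simp [mg, hi]
        · simp [mg, Function.update_of_ne hl]
      simp_rw [← Dd_sg hg]
      unfold Dd
      simp only [h, e1]
      rw [← E_sub, div_eq_inv_mul, ← M_mul]
      unfold E
      congr 1
      ext x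
      ring
    have : Dd i h = fun z => E (fun x => piv g i (mg U z x)) := funext e
    rw [this]
    exact E_mg U (piv g i)
  have h3 := bessel2 h
  have h4 : ∑ i ∈ U, infl g i ^ 2 ≤ W1 h := by
    unfold W1
    calc ∑ i ∈ U, infl g i ^ 2 = ∑ i ∈ U, (M (Dd i h) 0) ^ 2 :=
          Finset.sum_congr rfl fun i hi => by rw [← h2 i hi]
      _ ≤ _ := Finset.sum_le_sum_of_subset_of_nonneg (Finset.subset_univ _)
          fun _ _ _ => sq_nonneg _
  have h5 : E (fun z => VV (rs g U z)) = 1 - E (fun z => h z ^ 2) := by
    have := E_sub (fun _ : Fin n → Bool => (1 : ℝ)) (fun z => h z ^ 2)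
    rw [show E (fun _ : Fin n → Bool => (1 : ℝ)) = 1 from M_const _ _] at this
    exact this
  rw [h5]
  unfold VV
  unfold Vr at h3
  rw [← h1]
  linarith

lemma infl_half (g : (Fin n → Bool) → Bool) (i : Fin n) (c : Bool) :
    infl g i = 2 * E (fun x => piv g i x * if g x = c then 1 else 0) := by
  unfold infl
  simp_rw [E_eq]
  rw [sum_update i, sum_update i (fun x => piv g i x * if g x = c then 1 else 0), mul_div_assoc',
    Finset.mul_sum]
  congr 1
  apply Finset.sum_congr rfl
  intro y _
  unfold piv fl
  simp only [Function.update_self, Function.update_idem, Bool.not_true, Bool.not_false]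
  cases c <;> cases g (Function.update y i true) <;> cases g (Function.update y i false) <;> simp

end Pool.Agent.P.MP_405cad_co
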