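import Pool.Agent.P.MP_405cad_co.Main

/-! Random restrictions in which coordinate `i` is revealed with its own probability `q i`. -/

namespace Pool.Agent.P.MP_405cad_co

open Finset Pool.Agent.P.MP_1fa774_co

variable {n : ℕ}

/-- average over a random set that contains `i` with probability `q i`, independently -/
noncomputable def Eq' (q : Fin n → ℝ) (h : (Fin n → Bool) → ℝ) : ℝ := M h fun i => 2 * q i - 1

lemma Eq'_mono {q : Fin n → ℝ} (h0 : ∀ i, 0 ≤ q i) (h1 : ∀ i, q i ≤ 1)
    {g h : (Fin n → Bool) → ℝ} (H : ∀ x, g x ≤ h x) : Eq' q g ≤ Eq' q h :=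
  M_mono (fun i => abs_le.2 ⟨by linarith [h0 i], by linarith [h1 i]⟩) H

lemma Eq'_comm (q : Fin n → ℝ) (F : (Fin n → Bool) → (Fin n → Bool) → ℝ) :
    Eq' q (fun u => E (fun y => F u y)) = E (fun y => Eq' q (fun u => F u y)) := by
  unfold Eq' E M
  simp_rw [Finset.mul_sum]
  rw [Finset.sum_comm]
  exact Finset.sum_congr rfl fun _ _ => Finset.sum_congr rfl fun _ _ => by ring

lemma Eq'_sum_st (q w : Fin n → ℝ) : Eq' q (fun u => ∑ i ∈ st u, w i) = ∑ i, q i * w i := by
  have : ∀ u : Fin n → Bool, ∑ i ∈ st u, w i = ∑ i, if u i = true then w i else 0 := by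
    intro u
    unfold st
    rw [Finset.sum_filter]
  simp_rw [this]
  unfold Eq'
  rw [M_sum]
  apply Finset.sum_congr rfl
  intro i _
  rw [M_coord i (fun b => if b = true then w i else 0)]
  simp

lemma II_bias (q : Fin n → ℝ) (g : (Fin n → Bool) → Bool) :
    II g = ∑ i, q i * infl g i + Eq' q (fun u => E (fun z => II (rs g (st u) z))) := by
  have h1 : Eq' q (fun _ : Fin n → Bool => II g)
      = Eq' q (fun u => ∑ i ∈ st u, infl g i + E (fun z => II (rs g (st u) z))) := by
    congr 1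
    ext u
    exact II_split g (st u)
  rw [show Eq' q (fun _ : Fin n → Bool => II g) = II g from M_const _ _] at h1
  rw [h1, ← Eq'_sum_st]
  exact M_add _ _ _

lemma Eq'_prod (q : Fin n → ℝ) (h : Fin n → Bool → ℝ) :
    Eq' q (fun u => ∏ i, h i (u i)) = ∏ i, (q i * h i true + (1 - q i) * h i false) := by
  unfold Eq' M wt
  simp_rw [← Finset.prod_mul_distrib]
  rw [sum_prod_bool (fun l b => (1 + (2 * q l - 1) * sg b) / 2 * h l b)]
  exact Finset.prod_congr rfl fun l _ => by simp only [sg_true, sg_false]; ring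

/-- lower tail of the number of revealed elements of a set -/
lemma tail_bound {q : Fin n → ℝ} (h0 : ∀ i, 0 ≤ q i) (h1 : ∀ i, q i ≤ 1) (A : Finset (Fin n))
    (k : ℕ) : Eq' q (fun u => nind (k < (A ∩ st u).card)) ≤ Real.exp (k - (∑ i ∈ A, q i) / 2) := by
  classical
  let h : Fin n → Bool → ℝ := fun i b => if i ∈ A ∧ b = true then 1 / 2 else 1
  have e1 : ∀ u : Fin n → Bool, ∏ i, h i (u i) = (1 / 2) ^ (A ∩ st u).card := by
    intro u
    simp only [h]
    rw [Finset.prod_ite, Finset.prod_const_one, mul_one, Finset.prod_const]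
    congr 2
    ext i
    simp [st]
  have e2 : ∀ u : Fin n → Bool, nind (k < (A ∩ st u).card) ≤ Real.exp k * ∏ i, h i (u i) := by
    intro u
    rw [e1]
    by_cases hk : k < (A ∩ st u).card
    · rw [nind_pos hk]; positivity
    · rw [nind_neg hk]
      have h2 : (2 : ℝ) ≤ Real.exp 1 := by linarith [Real.add_one_le_exp (1 : ℝ)]
      have h3 : (2 : ℝ) ^ k ≤ Real.exp k := by
        rw [← mul_one (k : ℝ), Real.exp_nat_mul]
        exact pow_le_pow_left₀ (by norm_num) h2 k
      have h4 : ((1 : ℝ) / 2) ^ k ≤ (1 / 2) ^ (A ∩ st u).card :=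
        pow_le_pow_of_le_one (by norm_num) (by norm_num) (not_lt.1 hk)
      calc (1 : ℝ) = 2 ^ k * (1 / 2) ^ k := by rw [← mul_pow]; norm_num
        _ ≤ _ := mul_le_mul h3 h4 (by positivity) (Real.exp_pos _).le
  refine (Eq'_mono h0 h1 e2).trans ?_
  have e3 : Eq' q (fun u => Real.exp k * ∏ i, h i (u i))
      = Real.exp k * Eq' q (fun u => ∏ i, h i (u i)) := M_mul _ _ _
  rw [e3, Eq'_prod, sub_eq_add_neg, Real.exp_add]
  apply mul_le_mul_of_nonneg_left _ (Real.exp_pos _).le
  have e4 : Real.exp (-((∑ i ∈ A, q i) / 2)) = ∏ i, Real.exp (if i ∈ A then -(q i / 2) else 0) := by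
    rw [← Real.exp_sum, Finset.sum_ite_mem_eq, Finset.sum_neg_distrib, Finset.sum_div]
  rw [e4]
  refine Finset.prod_le_prod (fun i _ => ?_) fun i _ => ?_
  · have := h0 i
    have := h1 i
    by_cases hi : i ∈ A <;> simp [h, hi]
    nlinarith
  · by_cases hi : i ∈ A
    · have := Real.add_one_le_exp (-(q i / 2))
      simp [h, hi]
      linarith
    · simp [h, hi]

/-- if every small certificate has a large weight, the random set shortens all of them -/
lemma df_bias {q : Fin n → ℝ} (h0 : ∀ i, 0 ≤ q i) (h1 : ∀ i, q i ≤ 1) (g : (Fin n → Bool) → Bool)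
    (a' k b : ℕ) (μ : ℝ)
    (hμ : ∀ A, Cert g true A → A.card ≤ a' + (k + 1) → μ ≤ ∑ i ∈ A, q i) :
    Eq' q (fun u => E (fun z => df (rs g (st u) z) a' b))
      ≤ df g (a' + (k + 1)) b + Real.exp (k - μ / 2) := by
  refine (Eq'_mono h0 h1 fun u => df_rs_le g (st u) _ _).trans ?_
  rw [Eq'_comm]
  have e0 : E (fun y => nind (good g (a' + (k + 1)) b y) + Real.exp (k - μ / 2))
      = df g (a' + (k + 1)) b + Real.exp (k - μ / 2) := by
    unfold E
    rw [M_add, M_const]
    rfl
  rw [← e0]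
  apply E_mono
  intro y
  have hexp := Real.exp_pos (k - μ / 2)
  by_cases hy : good g (a' + (k + 1)) b y
  · rw [nind_pos hy, zero_add]
    rcases hy with ⟨A, hA, hy, hc⟩ | ⟨B, hB, hy, hc⟩
    · refine le_trans (Eq'_mono h0 h1 fun u => nind_mono fun h => Or.inl ⟨A, hA, hy, ?_⟩)
        ((tail_bound h0 h1 A k).trans (Real.exp_le_exp.2 ?_))
      · have := Finset.card_sdiff_add_card_inter A (st u)
        omega
      · linarith [hμ A hA hc]
    · have e1 : Eq' q (fun u => nind (goodU g (st u) a' b y)) ≤ Eq' q (fun _ => (0 : ℝ)) :=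
        Eq'_mono h0 h1 fun u => (nind_pos
          (Or.inr ⟨B, hB, hy, (Finset.card_le_card Finset.sdiff_subset).trans hc⟩)).le
      rw [show Eq' q (fun _ : Fin n → Bool => (0 : ℝ)) = 0 from M_const _ _] at e1
      linarith
  · rw [nind_neg hy]
    have e1 : Eq' q (fun u => nind (goodU g (st u) a' b y)) ≤ Eq' q (fun _ => (1 : ℝ)) :=
      Eq'_mono h0 h1 fun u => nind_le_one _
    rw [show Eq' q (fun _ : Fin n → Bool => (1 : ℝ)) = 1 from M_const _ _] at e1
    linarith

end Pool.Agent.P.MP_405cad_co
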