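import Pool.Agent.P.MP_405cad_co.Basic

namespace Pool.Agent.P.MP_405cad_co

open Finset Pool.Agent.P.MP_1fa774_co

variable {n : ℕ}

/-- `A` forces the value `c` -/
def Cert (g : (Fin n → Bool) → Bool) (c : Bool) (A : Finset (Fin n)) : Prop :=
  ∀ y : Fin n → Bool, (∀ i ∈ A, y i = c) → g y = c

/-- `y` has a certificate whose part outside `U` is small -/
def goodU (g : (Fin n → Bool) → Bool) (U : Finset (Fin n)) (a b : ℕ) (y : Fin n → Bool) : Prop :=
  (∃ A, Cert g true A ∧ (∀ i ∈ A, y i = true) ∧ (A \ U).card ≤ a) ∨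
  (∃ B, Cert g false B ∧ (∀ i ∈ B, y i = false) ∧ (B \ U).card ≤ b)

/-- `y` has a small certificate -/
def good (g : (Fin n → Bool) → Bool) (a b : ℕ) (y : Fin n → Bool) : Prop :=
  (∃ A, Cert g true A ∧ (∀ i ∈ A, y i = true) ∧ A.card ≤ a) ∨
  (∃ B, Cert g false B ∧ (∀ i ∈ B, y i = false) ∧ B.card ≤ b)

open Classical in
/-- indicator of failure -/
noncomputable def nind (p : Prop) : ℝ := if p then 0 else 1

lemma nind_nonneg (p : Prop) : 0 ≤ nind p := by unfold nind; split_ifs <;> norm_num
lemma nind_le_one (p : Prop) : nind p ≤ 1 := by unfold nind; split_ifs <;> norm_num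
lemma nind_pos {p : Prop} (h : p) : nind p = 0 := by unfold nind; rw [if_pos h]
lemma nind_neg {p : Prop} (h : ¬ p) : nind p = 1 := by unfold nind; rw [if_neg h]
lemma nind_mono {p q : Prop} (h : p → q) : nind q ≤ nind p := by
  by_cases hp : p
  · rw [nind_pos hp, nind_pos (h hp)]
  · rw [nind_neg hp]; exact nind_le_one q

/-- the defect -/
noncomputable def df (g : (Fin n → Bool) → Bool) (a b : ℕ) : ℝ := E (fun y => nind (good g a b y))

lemma df_nonneg (g : (Fin n → Bool) → Bool) (a b : ℕ) : 0 ≤ df g a b :=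
  M_zero_nonneg fun _ => nind_nonneg _

lemma cert_rs {g : (Fin n → Bool) → Bool} {c : Bool} {A U : Finset (Fin n)} {z x : Fin n → Bool}
    (hA : Cert g c A) (hy : ∀ i ∈ A, mg U z x i = c) :
    Cert (rs g U z) c (A \ U) ∧ ∀ i ∈ A \ U, x i = c := by
  constructor
  · intro y hy'
    apply hA
    intro i hi
    by_cases hU : i ∈ U
    · have := hy i hi
      simp only [mg, if_pos hU] at this ⊢
      exact this
    · simp only [mg, if_neg hU]
      exact hy' i (Finset.mem_sdiff.2 ⟨hi, hU⟩)
  · intro i hi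
    have := hy i (Finset.mem_sdiff.1 hi).1
    simpa [mg, (Finset.mem_sdiff.1 hi).2] using this

lemma df_rs_le (g : (Fin n → Bool) → Bool) (U : Finset (Fin n)) (a b : ℕ) :
    E (fun z => df (rs g U z) a b) ≤ E (fun y => nind (goodU g U a b y)) := by
  rw [← E_mg U (fun y => nind (goodU g U a b y))]
  apply E_mono
  intro z
  apply E_mono
  intro x
  apply nind_mono
  rintro (⟨A, hA, hy, hc⟩ | ⟨B, hB, hy, hc⟩)
  · exact Or.inl ⟨A \ U, (cert_rs hA hy).1, (cert_rs hA hy).2, hc⟩
  · exact Or.inr ⟨B \ U, (cert_rs hB hy).1, (cert_rs hB hy).2, hc⟩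

lemma cert_inter {g : (Fin n → Bool) → Bool} {A B : Finset (Fin n)} (hA : Cert g true A)
    (hB : Cert g false B) : ∃ i, i ∈ A ∧ i ∈ B := by
  by_contra hcon
  push Not at hcon
  have h1 := hA (fun i => decide (i ∈ A)) (by intro i hi; simpa using hi)
  have h2 := hB (fun i => decide (i ∈ A)) (by
    intro i hi
    simp only [decide_eq_false_iff_not]
    exact fun h => hcon i h hi)
  rw [h1] at h2
  exact Bool.noConfusion h2

lemma sens_le_cert {g : (Fin n → Bool) → Bool} {c : Bool} {A : Finset (Fin n)} {x : Fin n → Bool}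
    (hA : Cert g c A) (hx : ∀ i ∈ A, x i = c) : sens g x ≤ A.card := by
  unfold sens
  calc ∑ i, piv g i x ≤ ∑ i, if i ∈ A then (1 : ℝ) else 0 := by
        apply Finset.sum_le_sum
        intro i _
        split_ifs with hi
        · exact piv_le_one _ _ _
        · have h1 : g (fl x i) = c := by
            apply hA
            intro l hl
            have : l ≠ i := by rintro rfl; exact hi hl
            simp only [fl, Function.update_of_ne this]
            exact hx l hl
          have h2 : g x = c := hA x hx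
          simp [piv, h1, h2]
    _ = A.card := by simp

lemma base_bound {g : (Fin n → Bool) → Bool} {S : ℝ} (hS : ∀ x, sens g x ≤ S) (a b : ℕ) :
    II g ≤ ((a : ℝ) + b) + S * df g a b := by
  rw [II_eq]
  have : E (fun y => ((a : ℝ) + b) + S * nind (good g a b y)) = ((a : ℝ) + b) + S * df g a b := by
    unfold E
    rw [M_add, M_const, M_mul]
    rfl
  rw [← this]
  apply E_mono
  intro x
  have ha : (0 : ℝ) ≤ a := Nat.cast_nonneg _
  have hb : (0 : ℝ) ≤ b := Nat.cast_nonneg _
  by_cases hx : good g a b x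
  · rw [nind_pos hx]
    rcases hx with ⟨A, hA, hy, hc⟩ | ⟨B, hB, hy, hc⟩
    · have h1 := sens_le_cert hA hy
      have h2 : (A.card : ℝ) ≤ a := by exact_mod_cast hc
      linarith
    · have h1 := sens_le_cert hB hy
      have h2 : (B.card : ℝ) ≤ b := by exact_mod_cast hc
      linarith
  · rw [nind_neg hx]
    linarith [hS x]

lemma terminal_bound {g : (Fin n → Bool) → Bool} {S : ℝ} (hS : ∀ x, sens g x ≤ S) (hS0 : 0 ≤ S)
    (a b : ℕ) (c : Bool) (h : ∀ x, g x = c → ¬ good g a b x) : II g ≤ 2 * S * df g a b := by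
  unfold II
  simp_rw [infl_half g _ c]
  rw [← Finset.mul_sum]
  have h1 : ∑ i, E (fun x => piv g i x * if g x = c then 1 else 0)
      = E (fun x => sens g x * if g x = c then 1 else 0) := by
    unfold E
    rw [← M_sum]
    congr 1
    ext x
    unfold sens
    rw [Finset.sum_mul]
  rw [h1, mul_assoc]
  apply mul_le_mul_of_nonneg_left _ (by norm_num)
  unfold df E
  rw [← M_mul]
  apply E_mono
  intro x
  split_ifs with hx
  · rw [nind_neg (h x hx)]
    simpa using hS x
  · have := nind_nonneg (good g a b x)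
    rw [mul_zero]
    positivity

/-- the set encoded by a point -/
def st (u : Fin n → Bool) : Finset (Fin n) := univ.filter fun i => u i = true

lemma E_sum_st (w : Fin n → ℝ) : E (fun u => ∑ i ∈ st u, w i) = (∑ i, w i) / 2 := by
  have : ∀ u : Fin n → Bool, ∑ i ∈ st u, w i = ∑ i, if u i = true then w i else 0 := by
    intro u
    unfold st
    rw [Finset.sum_filter]
  simp_rw [this]
  unfold E
  rw [M_sum, Finset.sum_div]
  apply Finset.sum_congr rfl
  intro i _
  rw [M_coord i (fun b => if b = true then w i else 0)]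
  simp; ring

lemma cheb (C : Finset (Fin n)) (t : ℝ) (ht : 0 < t) :
    E (fun u => nind (((C \ st u).card : ℝ) ≤ C.card / 2 + t)) ≤ C.card / (4 * t ^ 2) := by
  have h1 := E_lin_sq (fun i : Fin n => if i ∈ C then (1 : ℝ) else 0)
  have h2 : ∑ a : Fin n, (if a ∈ C then (1 : ℝ) else 0) * (if a ∈ C then (1 : ℝ) else 0)
      = C.card := by
    simp
  rw [h2] at h1
  have h0 : (C.card : ℝ) / (4 * t ^ 2) = E (fun z : Fin n → Bool =>
      (4 * t ^ 2)⁻¹ * (∑ a, (if a ∈ C then (1 : ℝ) else 0) * sg (z a)) ^ 2) := by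
    unfold E at h1 ⊢
    rw [M_mul, h1, div_eq_inv_mul]
  rw [h0]
  apply E_mono
  intro u
  have h3 : ((C \ st u).card : ℝ)
      = C.card / 2 - (∑ a, (if a ∈ C then (1 : ℝ) else 0) * sg (u a)) / 2 := by
    have e1 : ((C \ st u).card : ℝ) = ∑ a, if a ∈ C \ st u then (1 : ℝ) else 0 := by
      rw [Finset.sum_ite_mem_eq]; simp
    have e2 : (C.card : ℝ) = ∑ a, if a ∈ C then (1 : ℝ) else 0 := by simp
    rw [e1, e2, ← sub_div, ← Finset.sum_sub_distrib, Finset.sum_div]
    apply Finset.sum_congr rfl
    intro a _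
    by_cases ha : a ∈ C <;> cases hu : u a <;> simp [st, ha, hu]
  by_cases hp : ((C \ st u).card : ℝ) ≤ C.card / 2 + t
  · rw [nind_pos hp]; positivity
  · rw [nind_neg hp]
    rw [h3] at hp
    set X := ∑ a, (if a ∈ C then (1 : ℝ) else 0) * sg (u a)
    have h4 : X < -(2 * t) := by linarith
    rw [← div_eq_inv_mul, le_div_iff₀ (by positivity)]
    nlinarith

lemma df_half (g : (Fin n → Bool) → Bool) (a b : ℕ) (S t : ℝ) (ht : 0 < t) (ha : (a : ℝ) ≤ S)
    (hb : (b : ℝ) ≤ S) :
    E (fun u => E (fun z => df (rs g (st u) z) (min a ⌊(a : ℝ) / 2 + t⌋₊) (min b ⌊(b : ℝ) / 2 + t⌋₊)))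
      ≤ df g a b + S / (4 * t ^ 2) := by
  refine (E_mono fun u => df_rs_le g (st u) _ _).trans ?_
  rw [E_comm]
  have h0 : E (fun y => nind (good g a b y) + S / (4 * t ^ 2)) = df g a b + S / (4 * t ^ 2) := by
    unfold E
    rw [M_add, M_const]
    rfl
  rw [← h0]
  apply E_mono
  intro y
  have hS0 : 0 ≤ S := (Nat.cast_nonneg a).trans ha
  have key : ∀ (C : Finset (Fin n)) (c : ℕ), C.card ≤ c → (c : ℝ) ≤ S → ∀ P : (Fin n → Bool) → Prop,
      (∀ u, (C \ st u).card ≤ min c ⌊(c : ℝ) / 2 + t⌋₊ → P u) →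
      E (fun u => nind (P u)) ≤ S / (4 * t ^ 2) := by
    intro C c hC hc P hP
    have hC' : (C.card : ℝ) ≤ c := by exact_mod_cast hC
    refine le_trans (E_mono fun u => nind_mono ?_) ((cheb C t ht).trans ?_)
    · intro h
      apply hP
      apply le_min
      · exact (Finset.card_le_card Finset.sdiff_subset).trans hC
      · apply Nat.le_floor
        linarith
    · exact div_le_div_of_nonneg_right (hC'.trans hc) (by positivity)
  by_cases hy : good g a b y
  · rw [nind_pos hy, zero_add]
    rcases hy with ⟨A, hA, hy, hc⟩ | ⟨B, hB, hy, hc⟩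
    · exact key A a hc ha _ fun u h => Or.inl ⟨A, hA, hy, h⟩
    · exact key B b hc hb _ fun u h => Or.inr ⟨B, hB, hy, h⟩
  · rw [nind_neg hy]
    have h1 : E (fun u => nind (goodU g (st u) (min a ⌊(a : ℝ) / 2 + t⌋₊)
        (min b ⌊(b : ℝ) / 2 + t⌋₊) y)) ≤ E (fun _ : Fin n → Bool => (1 : ℝ)) :=
      E_mono fun u => nind_le_one _
    rw [show E (fun _ : Fin n → Bool => (1 : ℝ)) = 1 from M_const _ _] at h1
    have : 0 ≤ S / (4 * t ^ 2) := by positivity
    linarith

/-- for monotone functions every point has a certificate of size at most the sensitivity -/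
lemma exists_cert {g : (Fin n → Bool) → Bool} (hg : Monotone g) (S : ℕ)
    (hS : ∀ x, sens g x ≤ S) (x : Fin n → Bool) :
    ∃ A, Cert g (g x) A ∧ (∀ i ∈ A, x i = g x) ∧ A.card ≤ S := by
  classical
  set c := g x with hc
  have hmono : ∀ y w : Fin n → Bool, (∀ i, y i = c → w i = c) → g y = c → g w = c := by
    intro y w hyw hy
    cases hcc : c
    · rw [hcc] at hyw hy
      have : w ≤ y := by
        intro i
        cases h : y i
        · rw [hyw i h]
        · exact Bool.le_true _
      have h2 := hg this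
      rw [hy] at h2
      exact le_antisymm h2 (Bool.false_le _)
    · rw [hcc] at hyw hy
      have : y ≤ w := by
        intro i
        cases h : y i
        · exact Bool.false_le _
        · rw [hyw i h]
      have h2 := hg this
      rw [hy] at h2
      exact le_antisymm (Bool.le_true _) h2
  let T : Finset (Finset (Fin n)) := univ.filter fun A => Cert g c A ∧ ∀ i ∈ A, x i = c
  have hT : T.Nonempty := by
    refine ⟨univ.filter fun i => x i = c, Finset.mem_filter.2 ⟨Finset.mem_univ _, ?_, ?_⟩⟩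
    · intro y hy
      exact hmono x y (fun i hi => hy i (Finset.mem_filter.2 ⟨Finset.mem_univ _, hi⟩)) rfl
    · intro i hi
      exact (Finset.mem_filter.1 hi).2
  obtain ⟨A, hA, hmin⟩ := Finset.exists_min_image T Finset.card hT
  obtain ⟨-, hA1, hA2⟩ := Finset.mem_filter.1 hA
  refine ⟨A, hA1, hA2, ?_⟩
  let p : Fin n → Bool := fun i => if i ∈ A then c else !c
  have hp : g p = c := hA1 p (by intro i hi; simp [p, hi])
  have hpiv : ∀ i ∈ A, piv g i p = 1 := by
    intro i hi
    have : g (fl p i) ≠ c := by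
      intro h
      have hcert : Cert g c (A.erase i) := by
        intro y hy
        apply hmono (fl p i) y _ h
        intro l hl
        apply hy
        by_cases hli : l = i
        · subst hli
          simp [fl, p, hi] at hl
        · simp only [fl, Function.update_of_ne hli, p] at hl
          rw [Finset.mem_erase]
          refine ⟨hli, ?_⟩
          by_contra hlA
          simp [hlA] at hl
      have h2 := hmin (A.erase i) (Finset.mem_filter.2 ⟨Finset.mem_univ _, hcert,
        fun l hl => hA2 l (Finset.mem_of_mem_erase hl)⟩)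
      have h3 := Finset.card_erase_lt_of_mem hi
      omega
    simp [piv, hp, this]
  have h1 : (A.card : ℝ) ≤ sens g p := by
    unfold sens
    calc (A.card : ℝ) = ∑ i ∈ A, piv g i p := by
          rw [Finset.sum_congr rfl hpiv]; simp
      _ ≤ _ := Finset.sum_le_sum_of_subset_of_nonneg (Finset.subset_univ _)
          fun _ _ _ => piv_nonneg _ _ _
  exact_mod_cast h1.trans (hS p)

lemma df_zero {g : (Fin n → Bool) → Bool} (hg : Monotone g) (S : ℕ)
    (hS : ∀ x, sens g x ≤ S) : df g S S = 0 := by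
  unfold df
  have : ∀ y, nind (good g S S y) = 0 := by
    intro y
    apply nind_pos
    obtain ⟨A, h1, h2, h3⟩ := exists_cert hg S hS y
    cases h : g y
    · rw [h] at h1 h2
      exact Or.inr ⟨A, h1, h2, h3⟩
    · rw [h] at h1 h2
      exact Or.inl ⟨A, h1, h2, h3⟩
  simp_rw [this]
  exact M_const _ _

end Pool.Agent.P.MP_405cad_co
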