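import Pool.Agent.P.MP_405cad_co.Cert

namespace Pool.Agent.P.MP_405cad_co

open Finset Pool.Agent.P.MP_1fa774_co

/-- the inductive statement with slope `α` -/
def PP (ε α : ℝ) : Prop :=
  ∃ Λ : ℝ, 2 ≤ Λ ∧ ∀ η : ℝ, 0 < η → ∃ K : ℝ, 1 ≤ K ∧ ∀ (n S : ℕ) (a b : ℕ)
    (g : (Fin n → Bool) → Bool), Monotone g → (∀ x, sens g x ≤ S) → a ≤ S → b ≤ S →
      II g ≤ ((a : ℝ) + b) * (α + ε * VV g) + η * S + K + Λ * S * df g a b

lemma PP_one {ε : ℝ} (hε : 0 < ε) : PP ε 1 := by
  refine ⟨2, le_rfl, fun η hη => ⟨1, le_rfl, ?_⟩⟩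
  intro n S a b g _ hS _ _
  have h1 := base_bound hS a b
  have h2 := df_nonneg g a b
  have h3 := VV_nonneg g
  have hS0 : (0 : ℝ) ≤ S := Nat.cast_nonneg _
  have hm : (0 : ℝ) ≤ (a : ℝ) + b := by positivity
  have h4 : 0 ≤ ((a : ℝ) + b) * (ε * VV g) := by positivity
  have h5 : 0 ≤ (S : ℝ) * df g a b := by positivity
  have h6 : 0 ≤ η * S := by positivity
  nlinarith

variable {n : ℕ}

/-- averaging the inductive bound over a restriction -/
lemma avg_bound {g : (Fin n → Bool) → Bool} (hg : Monotone g) (U : Finset (Fin n)) {a b : ℕ}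
    {α β c L : ℝ} (hβ : 0 ≤ β)
    (H : ∀ z, II (rs g U z) ≤ ((a : ℝ) + b) * (α + β * VV (rs g U z)) + c + L * df (rs g U z) a b) :
    E (fun z => II (rs g U z)) ≤ ((a : ℝ) + b) * (α + β * (VV g - ∑ i ∈ U, infl g i ^ 2)) + c
      + L * E (fun z => df (rs g U z) a b) := by
  refine (E_mono H).trans ?_
  have h1 : E (fun z => ((a : ℝ) + b) * (α + β * VV (rs g U z)) + c + L * df (rs g U z) a b)
      = ((a : ℝ) + b) * (α + β * E (fun z => VV (rs g U z))) + c
        + L * E (fun z => df (rs g U z) a b) := by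
    unfold E
    rw [M_add, M_add, M_const, M_mul, M_mul, M_add, M_const, M_mul]
  rw [h1]
  have h2 := VV_split hg U
  have hm : (0 : ℝ) ≤ (a : ℝ) + b := by positivity
  have h3 := mul_le_mul_of_nonneg_left (mul_le_mul_of_nonneg_left h2 hβ) hm
  nlinarith

lemma II_half (g : (Fin n → Bool) → Bool) :
    II g = 2 * E (fun u => E (fun z => II (rs g (st u) z))) := by
  have h1 : E (fun _ : Fin n → Bool => II g)
      = E (fun u => ∑ i ∈ st u, infl g i + E (fun z => II (rs g (st u) z))) := by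
    congr 1
    ext u
    exact II_split g (st u)
  rw [show E (fun _ : Fin n → Bool => II g) = II g from M_const _ _] at h1
  unfold E at h1
  rw [M_add] at h1
  have h2 := E_sum_st (infl g)
  unfold E at h2 ⊢
  rw [h2] at h1
  unfold II at h1 ⊢
  linarith

lemma PP_step {ε α : ℝ} (hε : 0 < ε) (hε1 : ε ≤ 1) (hα0 : 0 ≤ α) (hα1 : α ≤ 1) (h : PP ε α) :
    PP ε (max ε (α - ε ^ 5 / 4)) := by
  classical
  obtain ⟨Λ, hΛ, h⟩ := h
  refine ⟨2 * Λ, by linarith, fun η hη => ?_⟩
  obtain ⟨K, hK, h⟩ := h (η / 4) (by positivity)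
  set τ : ℝ := η / 16 with hτ
  have hτ0 : 0 < τ := by positivity
  refine ⟨2 * K + 2 * Λ / (4 * τ ^ 2), by
    have : 0 ≤ 2 * Λ / (4 * τ ^ 2) := by
      have : 0 ≤ Λ := by linarith
      positivity
    linarith, ?_⟩
  intro n S
  set α' := max ε (α - ε ^ 5 / 4) with hα'
  have hα'1 : ε ≤ α' := le_max_left _ _
  have hα'2 : α - ε ^ 5 / 4 ≤ α' := le_max_right _ _
  set K' := 2 * K + 2 * Λ / (4 * τ ^ 2) with hK'
  have hΛ0 : 0 ≤ Λ := by linarith
  have hK'1 : 1 ≤ K' := by
    have : 0 ≤ 2 * Λ / (4 * τ ^ 2) := by positivity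
    linarith
  have hS0 : (0 : ℝ) ≤ S := Nat.cast_nonneg _
  have hηS : 0 ≤ η * S := by positivity
  suffices H : ∀ m a b : ℕ, a + b = m → ∀ g : (Fin n → Bool) → Bool, Monotone g →
      (∀ x, sens g x ≤ S) → a ≤ S → b ≤ S →
      II g ≤ ((a : ℝ) + b) * (α' + ε * VV g) + η * S + K' + 2 * Λ * S * df g a b from
    fun a b g => H _ a b rfl g
  intro m
  induction m using Nat.strong_induction_on with
  | _ m ih =>
  intro a b hm g hg hS ha hb
  have hV := VV_nonneg g
  have hV1 := VV_le_one g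
  have hdf := df_nonneg g a b
  have hm0 : (0 : ℝ) ≤ (a : ℝ) + b := by positivity
  have hpot : 0 ≤ ((a : ℝ) + b) * (α' + ε * VV g) := by
    have : 0 ≤ α' := by linarith
    positivity
  have hSd : 0 ≤ (S : ℝ) * df g a b := by positivity
  have hΛd : 2 * (S * df g a b) ≤ 2 * Λ * S * df g a b := by nlinarith
  have hrsS : ∀ U z x, sens (rs g U z) x ≤ S := fun U z x => (sens_rs_le g U z x).trans (hS _)
  -- small case
  by_cases hsmall : m ≤ 1
  · have h1 := base_bound hS a b
    have h2 : (a : ℝ) + b ≤ 1 := by exact_mod_cast (hm ▸ hsmall : a + b ≤ 1)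
    linarith
  have hm2 : (2 : ℝ) ≤ (a : ℝ) + b := by exact_mod_cast (by omega : 2 ≤ a + b)
  -- terminal cases
  by_cases hex : ∃ A, Cert g true A ∧ A.card ≤ a
  swap
  · have h1 := terminal_bound hS hS0 a b true (by
      rintro x hx (⟨A, hA, -, hc⟩ | ⟨B, hB, hy, -⟩)
      · exact hex ⟨A, hA, hc⟩
      · rw [hB x hy] at hx
        exact Bool.noConfusion hx)
    linarith
  by_cases hb0 : b = 0
  · have h1 := terminal_bound hS hS0 a b false (by
      rintro x hx (⟨A, hA, hy, -⟩ | ⟨B, hB, -, hc⟩)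
      · rw [hA x hy] at hx
        exact Bool.noConfusion hx
      · obtain ⟨A, hA, -⟩ := hex
        obtain ⟨i, -, hi⟩ := cert_inter hA hB
        have : 0 < B.card := Finset.card_pos.2 ⟨i, hi⟩
        omega)
    linarith
  set mm : ℝ := (a : ℝ) + b with hmm
  have hmm0 : 0 < mm := by linarith
  let H : Finset (Fin n) := univ.filter fun i => ε / 2 / mm ≤ infl g i
  by_cases hcheap : ∃ A, Cert g true A ∧ A.card ≤ a ∧ ((A ∩ H).card : ℝ) ≤ ε ^ 2 * mm
  · -- reveal a cheap certificate
    obtain ⟨A, hA, hAc, hAH⟩ := hcheap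
    obtain ⟨b', rfl⟩ : ∃ b', b = b' + 1 := ⟨b - 1, by omega⟩
    have h1 := avg_bound hg A (a := a) (b := b') (α := α') (β := ε) (c := η * S + K')
      (L := 2 * Λ * S) hε.le (fun z => by
        have := ih (a + b') (by omega) a b' rfl (rs g A z) (rs_mono hg A z) (hrsS A z) ha (by omega)
        linarith)
    have h2 : E (fun z => df (rs g A z) a b') ≤ df g a (b' + 1) := by
      refine (df_rs_le g A a b').trans (E_mono fun y => nind_mono ?_)
      rintro (⟨A', hA', hy, hc⟩ | ⟨B, hB, hy, hc⟩)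
      · exact Or.inl ⟨A', hA', hy, (Finset.card_le_card Finset.sdiff_subset).trans hc⟩
      · refine Or.inr ⟨B, hB, hy, ?_⟩
        obtain ⟨i, hi1, hi2⟩ := cert_inter hA hB
        have : (B \ A).card < B.card := Finset.card_lt_card
          ⟨Finset.sdiff_subset, fun hsub => (Finset.mem_sdiff.1 (hsub hi2)).2 hi1⟩
        omega
    have hm1 : (a : ℝ) + b' = mm - 1 := by rw [hmm]; push_cast; ring
    have hm1' : 1 ≤ mm - 1 := by linarith
    have h3 : ∑ i ∈ A, infl g i ≤ ε + ε * (mm - 1) * ∑ i ∈ A, infl g i ^ 2 := by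
      have e1 : ∀ i ∈ A, infl g i ≤ ε / 2 / mm + (if i ∈ H then 1 / (4 * (ε * (mm - 1))) else 0)
          + ε * (mm - 1) * infl g i ^ 2 := by
        intro i _
        have hc : 0 < ε * (mm - 1) := by positivity
        split_ifs with hi
        · have e2 : infl g i ≤ 1 / (4 * (ε * (mm - 1))) + ε * (mm - 1) * infl g i ^ 2 := by
            rw [div_add' _ _ _ (by positivity), le_div_iff₀ (by positivity)]
            nlinarith [sq_nonneg (2 * (ε * (mm - 1)) * infl g i - 1)]
          have : 0 ≤ ε / 2 / mm := by positivity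
          linarith
        · simp only [H, Finset.mem_filter, Finset.mem_univ, true_and, not_le] at hi
          have : 0 ≤ ε * (mm - 1) * infl g i ^ 2 := by positivity
          linarith
      refine (Finset.sum_le_sum e1).trans ?_
      rw [Finset.sum_add_distrib, Finset.sum_add_distrib, ← Finset.mul_sum, Finset.sum_ite_mem]
      simp only [Finset.sum_const, nsmul_eq_mul]
      have e3 : (A.card : ℝ) * (ε / 2 / mm) ≤ ε / 2 := by
        have : (A.card : ℝ) ≤ mm := by
          have h5 : (A.card : ℝ) ≤ a := by exact_mod_cast hAc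
          have h6 : (0 : ℝ) ≤ ((b' + 1 : ℕ) : ℝ) := Nat.cast_nonneg _
          linarith
        calc (A.card : ℝ) * (ε / 2 / mm) ≤ mm * (ε / 2 / mm) :=
              mul_le_mul_of_nonneg_right this (by positivity)
          _ = ε / 2 := by field_simp
      have e4 : ((A ∩ H).card : ℝ) * (1 / (4 * (ε * (mm - 1)))) ≤ ε / 2 := by
        calc ((A ∩ H).card : ℝ) * (1 / (4 * (ε * (mm - 1))))
            ≤ ε ^ 2 * mm * (1 / (4 * (ε * (mm - 1)))) :=
              mul_le_mul_of_nonneg_right hAH (by positivity)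
          _ ≤ ε / 2 := by
              rw [mul_one_div, div_le_iff₀ (by positivity)]
              nlinarith [sq_nonneg ε]
      linarith
    rw [II_split g A]
    rw [hm1] at h1
    have h4 := mul_le_mul_of_nonneg_left h2 (show 0 ≤ 2 * Λ * S by positivity)
    have h5 : 0 ≤ ε * VV g := by positivity
    have h6 : (mm - 1) * (α' + ε * (VV g - ∑ i ∈ A, infl g i ^ 2))
        = mm * (α' + ε * VV g) - α' - ε * VV g - ε * (mm - 1) * ∑ i ∈ A, infl g i ^ 2 := by ring
    linarith
  push Not at hcheap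
  by_cases hW : ∑ i, infl g i ^ 2 ≤ ε ^ 4 / 2
  · -- reveal the heavy set
    obtain ⟨A0, hA0, hA0c⟩ := hex
    set k : ℕ := ⌊ε ^ 2 * mm⌋₊ + 1 with hk
    have hkA : ∀ A, Cert g true A → A.card ≤ a → k ≤ (A ∩ H).card := by
      intro A hA hAc
      have := hcheap A hA hAc
      rw [hk, Nat.add_one_le_iff, Nat.floor_lt (by positivity)]
      exact this
    have hka : k ≤ a :=
      (hkA A0 hA0 hA0c).trans ((Finset.card_le_card Finset.inter_subset_left).trans hA0c)
    obtain ⟨a', haa⟩ : ∃ a', a = a' + k := ⟨a - k, by omega⟩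
    have hk0 : 0 < k := Nat.succ_pos _
    have h1 := avg_bound hg H (a := a') (b := b) (α := α') (β := ε) (c := η * S + K')
      (L := 2 * Λ * S) hε.le (fun z => by
        have := ih (a' + b) (by omega) a' b rfl (rs g H z) (rs_mono hg H z) (hrsS H z) (by omega) hb
        linarith)
    have h2 : E (fun z => df (rs g H z) a' b) ≤ df g a b := by
      refine (df_rs_le g H a' b).trans (E_mono fun y => nind_mono ?_)
      rintro (⟨A', hA', hy, hc⟩ | ⟨B, hB, hy, hc⟩)
      · refine Or.inl ⟨A', hA', hy, ?_⟩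
        have h3 := hkA A' hA' hc
        have h4 := Finset.card_sdiff_add_card_inter A' H
        omega
      · exact Or.inr ⟨B, hB, hy, (Finset.card_le_card Finset.sdiff_subset).trans hc⟩
    have hm1 : (a' : ℝ) + b = mm - k := by
      have : (a : ℝ) = a' + k := by exact_mod_cast haa
      rw [hmm, this]; ring
    have hk1 : ε ^ 2 * mm ≤ k := by
      rw [hk]; push_cast
      exact (Nat.lt_floor_add_one _).le
    have h3 : ∑ i ∈ H, infl g i ≤ ε ^ 3 * mm := by
      calc ∑ i ∈ H, infl g i ≤ ∑ i ∈ H, (2 * mm / ε) * infl g i ^ 2 := by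
            apply Finset.sum_le_sum
            intro i hi
            have e1 : ε / 2 / mm ≤ infl g i := (Finset.mem_filter.1 hi).2
            have e2 : 1 ≤ (2 * mm / ε) * infl g i := by
              calc (1 : ℝ) = (2 * mm / ε) * (ε / 2 / mm) := by field_simp
                _ ≤ _ := mul_le_mul_of_nonneg_left e1 (by positivity)
            have e3 := infl_nonneg g i
            nlinarith
        _ ≤ (2 * mm / ε) * ∑ i, infl g i ^ 2 := by
            rw [← Finset.mul_sum]
            apply mul_le_mul_of_nonneg_left _ (by positivity)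
            exact Finset.sum_le_sum_of_subset_of_nonneg (Finset.subset_univ _)
              fun _ _ _ => sq_nonneg _
        _ ≤ (2 * mm / ε) * (ε ^ 4 / 2) := mul_le_mul_of_nonneg_left hW (by positivity)
        _ = ε ^ 3 * mm := by field_simp
    rw [II_split g H]
    have h4 := mul_le_mul_of_nonneg_left h2 (show 0 ≤ 2 * Λ * S by positivity)
    have h5 : 0 ≤ ε * VV g := by positivity
    have h6 : 0 ≤ ∑ i ∈ H, infl g i ^ 2 := Finset.sum_nonneg fun _ _ => sq_nonneg _
    have h7 : (0 : ℝ) ≤ (a' : ℝ) + b := by positivity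
    have h8 : ((a' : ℝ) + b) * (α' + ε * (VV g - ∑ i ∈ H, infl g i ^ 2))
        ≤ ((a' : ℝ) + b) * (α' + ε * VV g) := by
      apply mul_le_mul_of_nonneg_left _ h7
      nlinarith
    have h9 : ε ^ 3 * mm ≤ k * (α' + ε * VV g) := by
      calc ε ^ 3 * mm = ε ^ 2 * mm * ε := by ring
        _ ≤ k * (α' + ε * VV g) := by
          apply mul_le_mul hk1 (by linarith) hε.le (Nat.cast_nonneg _)
    rw [hm1] at h8
    rw [hm1] at h1
    have h10 : (mm - k) * (α' + ε * VV g) = mm * (α' + ε * VV g) - k * (α' + ε * VV g) := by ring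
    linarith
  · -- reveal a random half
    push Not at hW
    have hS1 : (1 : ℝ) ≤ S := by exact_mod_cast (by omega : 1 ≤ S)
    set t : ℝ := τ * S with ht
    have ht0 : 0 < t := by positivity
    set a' := min a ⌊(a : ℝ) / 2 + t⌋₊ with ha'
    set b' := min b ⌊(b : ℝ) / 2 + t⌋₊ with hb'
    have ha'1 : (a' : ℝ) ≤ a / 2 + t :=
      le_trans (by exact_mod_cast min_le_right _ _) (Nat.floor_le (by positivity))
    have hb'1 : (b' : ℝ) ≤ b / 2 + t :=
      le_trans (by exact_mod_cast min_le_right _ _) (Nat.floor_le (by positivity))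
    have hm' : (a' : ℝ) + b' ≤ mm / 2 + 2 * t := by rw [hmm]; linarith
    have h1 : ∀ u, E (fun z => II (rs g (st u) z))
        ≤ (mm / 2 + 2 * t) * (α + ε * (VV g - ∑ i ∈ st u, infl g i ^ 2)) + (η / 4 * S + K)
          + Λ * S * E (fun z => df (rs g (st u) z) a' b') := by
      intro u
      have e1 := avg_bound hg (st u) (a := a') (b := b') (α := α) (β := ε) (c := η / 4 * S + K)
        (L := Λ * S) hε.le (fun z => by
          have := h n S a' b' (rs g (st u) z) (rs_mono hg _ z) (hrsS _ z)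
            ((min_le_left _ _).trans ha) ((min_le_left _ _).trans hb)
          linarith)
      have e2 : 0 ≤ VV g - ∑ i ∈ st u, infl g i ^ 2 :=
        le_trans (M_zero_nonneg fun z => VV_nonneg _) (VV_split hg (st u))
      have e3 : 0 ≤ α + ε * (VV g - ∑ i ∈ st u, infl g i ^ 2) := by positivity
      have e4 := mul_le_mul_of_nonneg_right hm' e3
      linarith
    have h2 := E_mono h1
    have h3 : E (fun u => (mm / 2 + 2 * t) * (α + ε * (VV g - ∑ i ∈ st u, infl g i ^ 2))
          + (η / 4 * S + K) + Λ * S * E (fun z => df (rs g (st u) z) a' b'))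
        = (mm / 2 + 2 * t) * (α + ε * (VV g - (∑ i, infl g i ^ 2) / 2)) + (η / 4 * S + K)
          + Λ * S * E (fun u => E (fun z => df (rs g (st u) z) a' b')) := by
      rw [← E_sum_st (fun i => infl g i ^ 2),
        show VV g = E (fun _ : Fin n → Bool => VV g) from (M_const _ _).symm, ← E_sub]
      simp only [M_const]
      unfold E
      rw [M_add, M_add, M_const, M_mul, M_mul, M_add, M_const, M_mul]
    rw [h3] at h2
    have h4 := df_half g a b S t ht0 (by exact_mod_cast ha) (by exact_mod_cast hb)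
    have h5 := mul_le_mul_of_nonneg_left h4 (show 0 ≤ Λ * S by positivity)
    have h6 : Λ * S * (S / (4 * t ^ 2)) = Λ / (4 * τ ^ 2) := by
      rw [ht]; field_simp
    set W := ∑ i, infl g i ^ 2 with hWdef
    have hW0 : 0 ≤ W := Finset.sum_nonneg fun _ _ => sq_nonneg _
    have h7 : α + ε * (VV g - W / 2) ≤ α' + ε * VV g := by nlinarith
    have h8 : α + ε * (VV g - W / 2) ≤ 2 := by nlinarith
    have h9 := mul_le_mul_of_nonneg_left h7 hmm0.le
    have h10 := mul_le_mul_of_nonneg_left h8 ht0.le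
    have h11 : t * 8 = η / 2 * S := by rw [ht, hτ]; ring
    have h12 : 2 * Λ / (4 * τ ^ 2) = 2 * (Λ / (4 * τ ^ 2)) := by ring
    rw [II_half g]
    have h13 : (mm / 2 + 2 * t) * (α + ε * (VV g - W / 2))
        = mm * (α + ε * (VV g - W / 2)) / 2 + 2 * (t * (α + ε * (VV g - W / 2))) := by ring
    have h14 : Λ * S * (df g a b + S / (4 * t ^ 2))
        = Λ * S * df g a b + Λ * S * (S / (4 * t ^ 2)) := by ring
    have h15 : 2 * Λ * S * df g a b = 2 * (Λ * S * df g a b) := by ring
    have h16 : η / 4 * S = η * S / 4 := by ring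
    have h17 : η / 2 * S = η * S / 2 := by ring
    linarith

lemma PP_iter {ε : ℝ} (hε : 0 < ε) (hε1 : ε ≤ 1) (j : ℕ) : PP ε (max ε (1 - j * (ε ^ 5 / 4))) := by
  induction j with
  | zero => simpa [max_eq_right hε1] using PP_one hε
  | succ j ih =>
    have hd : 0 < ε ^ 5 / 4 := by positivity
    have h1 := PP_step hε hε1 (hε.le.trans (le_max_left _ _))
      (max_le hε1 (by nlinarith [Nat.cast_nonneg (α := ℝ) j])) ih
    have e : max ε (max ε (1 - j * (ε ^ 5 / 4)) - ε ^ 5 / 4)
        = max ε (1 - ((j + 1 : ℕ) : ℝ) * (ε ^ 5 / 4)) := by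
      push_cast
      rcases le_total ε (1 - j * (ε ^ 5 / 4)) with h | h
      · rw [max_eq_right h]
        congr 1
        ring
      · rw [max_eq_left h, max_eq_left (by linarith), max_eq_left (by linarith)]
    rw [← e]
    exact h1

theorem main {ε : ℝ} (hε : 0 < ε) : ∃ S0 : ℕ, ∀ (n S : ℕ) (g : (Fin n → Bool) → Bool),
    Monotone g → (∀ x, sens g x ≤ S) → S0 ≤ S → II g ≤ ε * S := by
  set e := min 1 (ε / 6) with he
  have he0 : 0 < e := lt_min one_pos (by positivity)
  have he1 : e ≤ 1 := min_le_left _ _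
  have he2 : e ≤ ε / 6 := min_le_right _ _
  obtain ⟨j, hj⟩ := exists_nat_ge (4 / e ^ 5)
  have h1 := PP_iter he0 he1 j
  have h2 : 1 - j * (e ^ 5 / 4) ≤ e := by
    rw [div_le_iff₀ (by positivity)] at hj
    nlinarith
  rw [max_eq_left h2] at h1
  obtain ⟨Λ, -, h1⟩ := h1
  obtain ⟨K, hK, h1⟩ := h1 e he0
  obtain ⟨S0, hS0⟩ := exists_nat_ge (K / e)
  refine ⟨S0, fun n S g hg hS hle => ?_⟩
  have h3 := h1 n S S S g hg hS le_rfl le_rfl
  rw [df_zero hg S hS] at h3
  have h4 : (S0 : ℝ) ≤ S := by exact_mod_cast hle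
  rw [div_le_iff₀ he0] at hS0
  have h5 := VV_le_one g
  have hS' : (0 : ℝ) ≤ S := Nat.cast_nonneg _
  have h6 : ((S : ℝ) + S) * (e + e * VV g) ≤ ((S : ℝ) + S) * (e + e * 1) := by
    apply mul_le_mul_of_nonneg_left _ (by positivity)
    nlinarith
  nlinarith

end Pool.Agent.P.MP_405cad_co
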