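import Pool.Agent.P.MP_405cad_co.Bias

/-! The three moves with explicit constants, and the rate. -/

namespace Pool.Agent.P.MP_405cad_co

open Finset Pool.Agent.P.MP_1fa774_co

variable {n : ℕ}

/-- reveal a certificate of small weight -/
lemma move_cheap {g : (Fin n → Bool) → Bool} (hg : Monotone g) {A : Finset (Fin n)}
    (hA : Cert g true A) {a b : ℕ} {α ε c L : ℝ} (hε : 0 < ε) (hL : 0 ≤ L)
    (hm : (0 : ℝ) < (a : ℝ) + b)
    (hw : ∑ i ∈ A, min (infl g i) (1 / (4 * (ε * ((a : ℝ) + b)))) ≤ α)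
    (H : ∀ z, II (rs g A z)
      ≤ ((a : ℝ) + b) * (α + ε * VV (rs g A z)) + c + L * df (rs g A z) a b) :
    II g ≤ ((a : ℝ) + (b + 1 : ℕ)) * (α + ε * VV g) + c + L * df g a (b + 1) := by
  have h1 := avg_bound hg A hε.le H
  have h2 : E (fun z => df (rs g A z) a b) ≤ df g a (b + 1) := by
    refine (df_rs_le g A a b).trans (E_mono fun y => nind_mono ?_)
    rintro (⟨A', hA', hy, hc⟩ | ⟨B, hB, hy, hc⟩)
    · exact Or.inl ⟨A', hA', hy, (Finset.card_le_card Finset.sdiff_subset).trans hc⟩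
    · refine Or.inr ⟨B, hB, hy, ?_⟩
      obtain ⟨i, hi1, hi2⟩ := cert_inter hA hB
      have : (B \ A).card < B.card := Finset.card_lt_card
        ⟨Finset.sdiff_subset, fun hsub => (Finset.mem_sdiff.1 (hsub hi2)).2 hi1⟩
      omega
  set m : ℝ := (a : ℝ) + b with hmdef
  have hc : 0 < ε * m := by positivity
  have h3 : ∑ i ∈ A, infl g i ≤ α + ε * m * ∑ i ∈ A, infl g i ^ 2 := by
    have e1 : ∀ i ∈ A, infl g i ≤ min (infl g i) (1 / (4 * (ε * m))) + ε * m * infl g i ^ 2 := by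
      intro i _
      rcases le_total (infl g i) (1 / (4 * (ε * m))) with hi | hi
      · rw [min_eq_left hi]
        have : 0 ≤ ε * m * infl g i ^ 2 := by positivity
        linarith
      · rw [min_eq_right hi, div_add' _ _ _ (by positivity), le_div_iff₀ (by positivity)]
        nlinarith [sq_nonneg (2 * (ε * m) * infl g i - 1)]
    refine (Finset.sum_le_sum e1).trans ?_
    rw [Finset.sum_add_distrib, ← Finset.mul_sum]
    linarith
  rw [II_split g A]
  have h4 := mul_le_mul_of_nonneg_left h2 hL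
  have h5 : 0 ≤ ε * VV g := mul_nonneg hε.le (VV_nonneg g)
  have h6 : ((a : ℝ) + (b + 1 : ℕ)) = m + 1 := by rw [hmdef]; push_cast; ring
  rw [h6]
  nlinarith

/-- reveal a random set, each coordinate with probability proportional to its weight -/
lemma move_bias {g : (Fin n → Bool) → Bool} (hg : Monotone g) {a k b : ℕ} {α ε γ c L : ℝ}
    (hε : 0 < ε) (hα : 0 < α) (hγ : 0 < γ) (hL : 0 ≤ L) (hk : (k : ℝ) ≤ α / γ / 4)
    (hk' : α / γ / 4 ≤ (k : ℝ) + 1)
    (hw : ∀ A, Cert g true A → A.card ≤ a + (k + 1) → α ≤ ∑ i ∈ A, min (infl g i) γ)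
    (hW : ∑ i, infl g i ^ 2 ≤ α ^ 2 / 8) (herr : L * (32 / (α / γ) ^ 2) ≤ α ^ 2 / (8 * γ))
    (H : ∀ U z, II (rs g U z)
      ≤ ((a : ℝ) + b) * (α + ε * VV (rs g U z)) + c + L * df (rs g U z) a b) :
    II g ≤ (((a + (k + 1) : ℕ) : ℝ) + b) * (α + ε * VV g) + c + L * df g (a + (k + 1)) b := by
  let q : Fin n → ℝ := fun i => min (infl g i) γ / γ
  have h0 : ∀ i, 0 ≤ q i := fun i => div_nonneg (le_min (infl_nonneg g i) hγ.le) hγ.le
  have h1 : ∀ i, q i ≤ 1 := fun i => (div_le_one hγ).2 (min_le_right _ _)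
  have hm : (0 : ℝ) ≤ (a : ℝ) + b := by positivity
  have h2 : ∀ u, E (fun z => II (rs g (st u) z)) ≤ ((a : ℝ) + b) * (α + ε * VV g) + c
      + L * E (fun z => df (rs g (st u) z) a b) := by
    intro u
    have e1 := avg_bound hg (st u) hε.le (H (st u))
    have e2 : 0 ≤ ∑ i ∈ st u, infl g i ^ 2 := Finset.sum_nonneg fun _ _ => sq_nonneg _
    have e3 : 0 ≤ ((a : ℝ) + b) * (ε * ∑ i ∈ st u, infl g i ^ 2) := by positivity
    nlinarith
  have h3 := Eq'_mono h0 h1 h2
  have h4 : Eq' q (fun u => ((a : ℝ) + b) * (α + ε * VV g) + c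
        + L * E (fun z => df (rs g (st u) z) a b))
      = ((a : ℝ) + b) * (α + ε * VV g) + c
        + L * Eq' q (fun u => E (fun z => df (rs g (st u) z) a b)) := by
    unfold Eq'
    rw [M_add, M_const, M_mul]
  rw [h4] at h3
  have h5 := df_bias h0 h1 g a k b (α / γ) fun A hA hc => by
    simp only [q]
    rw [← Finset.sum_div]
    exact div_le_div_of_nonneg_right (hw A hA hc) hγ.le
  have hμ : 0 < α / γ := div_pos hα hγ
  have h6 : Real.exp (k - α / γ / 2) ≤ 32 / (α / γ) ^ 2 := by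
    have e1 : Real.exp (k - α / γ / 2) ≤ Real.exp (-(α / γ / 4)) := Real.exp_le_exp.2 (by linarith)
    refine e1.trans ?_
    have e2 := Real.quadratic_le_exp_of_nonneg (x := α / γ / 4) (by positivity)
    rw [Real.exp_neg, inv_eq_one_div, div_le_div_iff₀ (Real.exp_pos _) (by positivity)]
    nlinarith
  have h7 : ∑ i, q i * infl g i ≤ α ^ 2 / (8 * γ) := by
    calc ∑ i, q i * infl g i ≤ ∑ i, infl g i ^ 2 / γ := Finset.sum_le_sum fun i _ => by
          simp only [q]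
          rw [div_mul_eq_mul_div, sq]
          exact div_le_div_of_nonneg_right
            (mul_le_mul_of_nonneg_right (min_le_left _ _) (infl_nonneg g i)) hγ.le
      _ = (∑ i, infl g i ^ 2) / γ := (Finset.sum_div _ _ _).symm
      _ ≤ (α ^ 2 / 8) / γ := div_le_div_of_nonneg_right hW hγ.le
      _ = α ^ 2 / (8 * γ) := by rw [div_div]
  have h8 : 2 * (α ^ 2 / (8 * γ)) ≤ ((k : ℝ) + 1) * (α + ε * VV g) := by
    have e1 : 0 ≤ ε * VV g := mul_nonneg hε.le (VV_nonneg g)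
    calc 2 * (α ^ 2 / (8 * γ)) = α / γ / 4 * α := by field_simp; ring
      _ ≤ _ := mul_le_mul hk' (by linarith) hα.le (by positivity)
  have h9 := mul_le_mul_of_nonneg_left (h5.trans (add_le_add le_rfl h6)) hL
  rw [II_bias q g]
  push_cast
  nlinarith

/-- reveal a random half -/
lemma move_half {g : (Fin n → Bool) → Bool} (hg : Monotone g) {S a b : ℕ} {α α' ε η K Λ : ℝ}
    (hε : 0 < ε) (hε1 : ε ≤ 1) (hα0 : 0 ≤ α) (hα1 : α ≤ 1) (hη : 0 < η) (hΛ : 0 ≤ Λ)
    (hS1 : 1 ≤ S) (ha : a ≤ S) (hb : b ≤ S) (hW : α ≤ α' + ε * ((∑ i, infl g i ^ 2) / 2))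
    (H : ∀ U z, ∀ a' ≤ S, ∀ b' ≤ S, II (rs g U z) ≤ ((a' : ℝ) + b') * (α + ε * VV (rs g U z))
      + η / 4 * S + K + Λ * S * df (rs g U z) a' b') :
    II g ≤ ((a : ℝ) + b) * (α' + ε * VV g) + η * S + (2 * K + 128 * Λ / η ^ 2)
      + 2 * Λ * S * df g a b := by
  have hS1' : (1 : ℝ) ≤ S := by exact_mod_cast hS1
  have hV1 := VV_le_one g
  set mm : ℝ := (a : ℝ) + b with hmm
  have hmm0 : 0 ≤ mm := by positivity
  set t : ℝ := η / 16 * S with ht
  have ht0 : 0 < t := by positivity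
  set a' := min a ⌊(a : ℝ) / 2 + t⌋₊ with ha'
  set b' := min b ⌊(b : ℝ) / 2 + t⌋₊ with hb'
  have ha'1 : (a' : ℝ) ≤ a / 2 + t :=
    le_trans (by exact_mod_cast min_le_right _ _) (Nat.floor_le (by positivity))
  have hb'1 : (b' : ℝ) ≤ b / 2 + t :=
    le_trans (by exact_mod_cast min_le_right _ _) (Nat.floor_le (by positivity))
  have hm' : (a' : ℝ) + b' ≤ mm / 2 + 2 * t := by rw [hmm]; linarith
  have h1 : ∀ u, E (fun z => II (rs g (st u) z))
      ≤ (mm / 2 + 2 * t) * (α + ε * (VV g - ∑ i ∈ st u, infl g i ^ 2)) + (η / 4 * S + K)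
        + Λ * S * E (fun z => df (rs g (st u) z) a' b') := by
    intro u
    have e1 := avg_bound hg (st u) (a := a') (b := b') (α := α) (β := ε) (c := η / 4 * S + K)
      (L := Λ * S) hε.le (fun z => by
        have := H (st u) z a' ((min_le_left _ _).trans ha) b' ((min_le_left _ _).trans hb)
        linarith)
    have e2 : 0 ≤ VV g - ∑ i ∈ st u, infl g i ^ 2 :=
      le_trans (M_zero_nonneg fun z => VV_nonneg _) (VV_split hg (st u))
    have e3 : 0 ≤ α + ε * (VV g - ∑ i ∈ st u, infl g i ^ 2) := by positivity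
    have e4 := mul_le_mul_of_nonneg_right hm' e3
    linarith
  have h2 := E_mono h1
  have h3 : E (fun u => (mm / 2 + 2 * t) * (α + ε * (VV g - ∑ i ∈ st u, infl g i ^ 2))
        + (η / 4 * S + K) + Λ * S * E (fun z => df (rs g (st u) z) a' b'))
      = (mm / 2 + 2 * t) * (α + ε * (VV g - (∑ i, infl g i ^ 2) / 2)) + (η / 4 * S + K)
        + Λ * S * E (fun u => E (fun z => df (rs g (st u) z) a' b')) := by
    rw [← E_sum_st (fun i => infl g i ^ 2),
      show VV g = E (fun _ : Fin n → Bool => VV g) from (M_const _ _).symm, ← E_sub]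
    simp only [M_const]
    unfold E
    rw [M_add, M_add, M_const, M_mul, M_mul, M_add, M_const, M_mul]
  rw [h3] at h2
  have h4 := df_half g a b S t ht0 (by exact_mod_cast ha) (by exact_mod_cast hb)
  have h5 := mul_le_mul_of_nonneg_left h4 (show 0 ≤ Λ * S by positivity)
  have h6 : Λ * S * (S / (4 * t ^ 2)) = 64 * Λ / η ^ 2 := by
    rw [ht]; field_simp; ring
  set W := ∑ i, infl g i ^ 2 with hWdef
  have hW0 : 0 ≤ W := Finset.sum_nonneg fun _ _ => sq_nonneg _
  have h7 : α + ε * (VV g - W / 2) ≤ α' + ε * VV g := by nlinarith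
  have h8 : α + ε * (VV g - W / 2) ≤ 2 := by nlinarith
  have h9 := mul_le_mul_of_nonneg_left h7 hmm0
  have h10 := mul_le_mul_of_nonneg_left h8 ht0.le
  have h11 : t * 8 = η * S / 2 := by rw [ht]; ring
  have h12 : 128 * Λ / η ^ 2 = 2 * (64 * Λ / η ^ 2) := by ring
  rw [II_half g]
  have h13 : (mm / 2 + 2 * t) * (α + ε * (VV g - W / 2))
      = mm * (α + ε * (VV g - W / 2)) / 2 + 2 * (t * (α + ε * (VV g - W / 2))) := by ring
  have h14 : Λ * S * (df g a b + S / (4 * t ^ 2))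
      = Λ * S * df g a b + Λ * S * (S / (4 * t ^ 2)) := by ring
  have h15 : 2 * Λ * S * df g a b = 2 * (Λ * S * df g a b) := by ring
  have h16 : η / 4 * S = η * S / 4 := by ring
  linarith

/-- the inductive statement after `j` halvings -/
def PQ (ε α : ℝ) (j : ℕ) : Prop :=
  ∀ η : ℝ, 0 < η → η ≤ 1 → ∀ (n S a b : ℕ) (g : (Fin n → Bool) → Bool), Monotone g →
    (∀ x, sens g x ≤ S) → a ≤ S → b ≤ S →
      II g ≤ ((a : ℝ) + b) * (α + ε * VV g) + η * S + 3 * 256 ^ j / (ε ^ 7 * η ^ 3)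
        + 2 ^ (j + 1) * S * df g a b

lemma PQ_zero {ε : ℝ} (hε : 0 < ε) : PQ ε 1 0 := by
  intro η hη _ n S a b g _ hS _ _
  have h1 := base_bound hS a b
  have h2 := df_nonneg g a b
  have h3 := VV_nonneg g
  have h4 : 0 ≤ ((a : ℝ) + b) * (ε * VV g) := by positivity
  have h5 : 0 ≤ (S : ℝ) * df g a b := by positivity
  have h6 : 0 ≤ η * S := by positivity
  have h7 : 0 ≤ 3 * 256 ^ 0 / (ε ^ 7 * η ^ 3) := by positivity
  nlinarith

lemma II_le {g : (Fin n → Bool) → Bool} {S : ℝ} (hS : ∀ x, sens g x ≤ S) : II g ≤ S := by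
  rw [II_eq]
  exact (E_mono hS).trans (M_const _ _).le

lemma PQ_step {ε α α' : ℝ} {j : ℕ} (hε : 0 < ε) (hα0 : 0 ≤ α) (hα1 : α ≤ 1) (hεα : ε ≤ α')
    (hα' : α' ≤ 1) (hd : α ≤ α' + ε * (α' ^ 2 / 16)) (h : PQ ε α j) : PQ ε α' (j + 1) := by
  classical
  intro η hη hη1 n S
  have hε1 : ε ≤ 1 := hεα.trans hα'
  have hα'0 : 0 < α' := hε.trans_le hεα
  set D : ℝ := ε ^ 7 * η ^ 3 with hD
  have hD0 : 0 < D := by positivity
  have hD1 : D ≤ η ^ 3 := by
    have : ε ^ 7 ≤ 1 := pow_le_one₀ hε.le hε1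
    nlinarith [pow_pos hη 3]
  have hη3 : η ^ 3 ≤ η ^ 2 := pow_le_pow_of_le_one hη.le hη1 (by norm_num)
  have hη2 : η ^ 2 ≤ η := by nlinarith
  set K' : ℝ := 3 * 256 ^ (j + 1) / D with hK'
  set Λ : ℝ := 2 ^ (j + 1) with hΛ
  have hΛ2 : 2 ≤ Λ := by
    rw [hΛ, pow_succ]
    nlinarith [one_le_pow₀ (M₀ := ℝ) (a := 2) (by norm_num) (n := j)]
  have hΛ3 : Λ ≤ 2 * 256 ^ j := by
    rw [hΛ, pow_succ, mul_comm]
    exact mul_le_mul_of_nonneg_left (pow_le_pow_left₀ (by norm_num) (by norm_num) j) (by norm_num)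
  have hK1 : 384 * Λ / D ≤ K' := by
    rw [hK', pow_succ]
    exact div_le_div_of_nonneg_right (by linarith) hD0.le
  have hK0 : 0 ≤ K' := by positivity
  have hS0 : (0 : ℝ) ≤ S := Nat.cast_nonneg _
  have hηS : 0 ≤ η * S := by positivity
  rw [show (2 : ℝ) ^ (j + 1 + 1) = 2 * Λ by rw [hΛ]; ring]
  suffices H : ∀ m a b : ℕ, a + b = m → ∀ g : (Fin n → Bool) → Bool, Monotone g →
      (∀ x, sens g x ≤ S) → a ≤ S → b ≤ S →
      II g ≤ ((a : ℝ) + b) * (α' + ε * VV g) + η * S + K' + 2 * Λ * S * df g a b from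
    fun a b g => H _ a b rfl g
  intro m
  induction m using Nat.strong_induction_on with
  | _ m ih =>
  intro a b hm g hg hS ha hb
  have hV := VV_nonneg g
  have hdf := df_nonneg g a b
  have hpot : 0 ≤ ((a : ℝ) + b) * (α' + ε * VV g) := by positivity
  have hSd : 0 ≤ (S : ℝ) * df g a b := by positivity
  have hΛd : 2 * (S * df g a b) ≤ 2 * Λ * S * df g a b := by nlinarith
  have hrsS : ∀ U z x, sens (rs g U z) x ≤ S := fun U z x => (sens_rs_le g U z x).trans (hS _)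
  by_cases hSK : (S : ℝ) ≤ K'
  · linarith [II_le hS]
  by_cases hsmall : (a : ℝ) + b ≤ η * S
  · linarith [base_bound hS a b]
  push Not at hSK hsmall
  have hSD : 384 * Λ ≤ S * D := (div_le_iff₀ hD0).1 (hK1.trans hSK.le)
  have hm2 : (2 : ℝ) ≤ (a : ℝ) + b := by nlinarith
  have hS1 : (1 : ℝ) ≤ S := by nlinarith
  by_cases hex : ∃ A, Cert g true A ∧ A.card ≤ a
  swap
  · have h1 := terminal_bound hS hS0 a b true (by
      rintro x hx (⟨A, hA, -, hc⟩ | ⟨B, hB, hy, -⟩)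
      · exact hex ⟨A, hA, hc⟩
      · rw [hB x hy] at hx
        exact Bool.noConfusion hx)
    linarith
  by_cases hb0 : b = 0
  · have h1 := terminal_bound hS hS0 a b false (by
      rintro x hx (⟨A, hA, hy, -⟩ | ⟨B, hB, -, hc⟩)
      · rw [hA x hy] at hx
        exact Bool.noConfusion hx
      · obtain ⟨A, hA, -⟩ := hex
        obtain ⟨i, -, hi⟩ := cert_inter hA hB
        have : 0 < B.card := Finset.card_pos.2 ⟨i, hi⟩
        omega)
    linarith
  obtain ⟨b', rfl⟩ : ∃ b', b = b' + 1 := ⟨b - 1, by omega⟩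
  set m1 : ℝ := (a : ℝ) + b' with hm1
  have hmm : (a : ℝ) + (b' + 1 : ℕ) = m1 + 1 := by rw [hm1]; push_cast; ring
  have hm1' : 1 ≤ m1 := by linarith
  set γ : ℝ := 1 / (4 * (ε * m1)) with hγ
  have hγ0 : 0 < γ := by positivity
  by_cases hcheap : ∃ A, Cert g true A ∧ A.card ≤ a ∧ ∑ i ∈ A, min (infl g i) γ ≤ α'
  · obtain ⟨A, hA, -, hw⟩ := hcheap
    have h1 := move_cheap hg hA (c := η * S + K') (L := 2 * Λ * S) hε (by positivity)
      (by linarith) hw fun z => by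
        have := ih (a + b') (by omega) a b' rfl (rs g A z) (rs_mono hg A z) (hrsS A z) ha (by omega)
        linarith
    linarith
  push Not at hcheap
  by_cases hW : ∑ i, infl g i ^ 2 ≤ α' ^ 2 / 8
  · obtain ⟨A0, hA0, hA0c⟩ := hex
    have hμ : α' / γ = 4 * (ε * m1) * α' := by rw [hγ]; field_simp
    have hμ0 : 0 < α' / γ := div_pos hα'0 hγ0
    set k : ℕ := ⌊α' / γ / 4⌋₊ with hk
    have hk1 : (k : ℝ) ≤ α' / γ / 4 := Nat.floor_le (by positivity)
    have hka : k < a := by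
      have e1 : ∑ i ∈ A0, min (infl g i) γ ≤ A0.card • γ :=
        Finset.sum_le_card_nsmul _ _ _ fun _ _ => min_le_right _ _
      rw [nsmul_eq_mul] at e1
      have e2 : α' / γ < A0.card := (div_lt_iff₀ hγ0).2 ((hcheap A0 hA0 hA0c).trans_le e1)
      have e3 : (A0.card : ℝ) ≤ a := by exact_mod_cast hA0c
      have : (k : ℝ) < a := by linarith
      exact_mod_cast this
    obtain ⟨a', haa⟩ : ∃ a', a = a' + (k + 1) := ⟨a - (k + 1), by omega⟩
    have herr : 2 * Λ * S * (32 / (α' / γ) ^ 2) ≤ α' ^ 2 / (8 * γ) := by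
      have e0 : η * S ≤ 2 * m1 := by linarith
      have e1 : 2 * ε ^ 2 * (η * S) ≤ α' / γ := by
        rw [hμ]
        calc 2 * ε ^ 2 * (η * S) ≤ 2 * ε ^ 2 * (2 * m1) :=
              mul_le_mul_of_nonneg_left e0 (by positivity)
          _ = 4 * (ε * m1) * ε := by ring
          _ ≤ _ := mul_le_mul_of_nonneg_left hεα (by positivity)
      have e2 : ε ^ 3 * (η * S) / 4 ≤ α' ^ 2 / (8 * γ) := by
        calc ε ^ 3 * (η * S) / 4 = ε * (2 * ε ^ 2 * (η * S)) / 8 := by ring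
          _ ≤ α' * (α' / γ) / 8 :=
              div_le_div_of_nonneg_right (mul_le_mul hεα e1 (by positivity) hα'0.le) (by norm_num)
          _ = α' ^ 2 / (8 * γ) := by field_simp
      refine le_trans ?_ e2
      have e3 : 32 / (α' / γ) ^ 2 ≤ 32 / (2 * ε ^ 2 * (η * S)) ^ 2 :=
        div_le_div_of_nonneg_left (by norm_num) (by positivity)
          (pow_le_pow_left₀ (by positivity) e1 2)
      refine (mul_le_mul_of_nonneg_left e3 (by positivity)).trans ?_
      have e4 : 2 * Λ * S * (32 / (2 * ε ^ 2 * (η * S)) ^ 2) = 16 * Λ / (ε ^ 4 * η ^ 2 * S) := by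
        field_simp; ring
      rw [e4, div_le_iff₀ (by positivity)]
      have e5 : ε ^ 3 * (η * S) / 4 * (ε ^ 4 * η ^ 2 * S) = S * (S * D) / 4 := by rw [hD]; ring
      rw [e5]
      nlinarith
    have h1 := move_bias hg (c := η * S + K') (L := 2 * Λ * S) (b := b' + 1) hε hα'0 hγ0
      (by positivity) hk1 (Nat.lt_floor_add_one _).le
      (fun A hA hc => (hcheap A hA (haa ▸ hc)).le) hW herr fun U z => by
        have := ih (a' + (b' + 1)) (by omega) a' (b' + 1) rfl (rs g U z) (rs_mono hg U z)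
          (hrsS U z) (by omega) hb
        linarith
    rw [← haa] at h1
    linarith
  · push Not at hW
    have h1 := move_half hg (α' := α') (K := 3 * 256 ^ j / (ε ^ 7 * (η / 4) ^ 3)) (Λ := Λ) hε hε1
      hα0 hα1 hη (by positivity) (by exact_mod_cast hS1) ha hb (by nlinarith)
      fun U z a' ha' b' hb' => h (η / 4) (by positivity) (by linarith) n S a' b' (rs g U z)
        (rs_mono hg U z) (hrsS U z) ha' hb'
    have h2 : 2 * (3 * 256 ^ j / (ε ^ 7 * (η / 4) ^ 3)) = 384 * 256 ^ j / D := by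
      rw [hD]; field_simp; ring
    have h3 : 128 * Λ / η ^ 2 ≤ 384 * 256 ^ j / D :=
      div_le_div₀ (by positivity) (by nlinarith [pow_pos (show (0 : ℝ) < 256 by norm_num) j]) hD0
        (hD1.trans hη3)
    have h4 : K' = 384 * 256 ^ j / D + 384 * 256 ^ j / D := by rw [hK']; ring
    linarith

lemma PQ_iter {q : ℕ} (hq : 1 ≤ q) (j : ℕ) (hj : j ≤ 32 * q * (q - 1)) :
    PQ (1 / q) (1 / (1 + j / (32 * q))) j := by
  have hq1 : (1 : ℝ) ≤ q := by exact_mod_cast hq
  induction j with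
  | zero => simpa using PQ_zero (ε := 1 / q) (by positivity)
  | succ j ih =>
    have hj0 : (0 : ℝ) ≤ j / (32 * q) := by positivity
    have hj1 : ((j + 1 : ℕ) : ℝ) ≤ 32 * q * (q - 1) := by
      have : ((32 * q * (q - 1) : ℕ) : ℝ) = 32 * q * (q - 1) := by
        push_cast [Nat.cast_sub hq]; ring
      rw [← this]
      exact_mod_cast hj
    set x : ℝ := 1 + j / (32 * q) with hx
    have hx1 : 1 ≤ x := by linarith
    set d : ℝ := 1 / (32 * q) with hd
    have hd0 : 0 < d := by positivity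
    have hd1 : d ≤ 1 := by rw [hd, div_le_one (by positivity)]; linarith
    have e : (1 : ℝ) + ((j + 1 : ℕ) : ℝ) / (32 * q) = x + d := by rw [hx, hd]; push_cast; ring
    have e1 : x + d ≤ q := by
      rw [← e]
      have : ((j + 1 : ℕ) : ℝ) / (32 * q) ≤ q - 1 := by
        rw [div_le_iff₀ (by positivity)]; linarith
      linarith
    rw [e]
    refine PQ_step (by positivity) (by positivity) ((div_le_one (by positivity)).2 hx1)
      (one_div_le_one_div_of_le (by positivity) e1) ((div_le_one (by positivity)).2 (by linarith))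
      ?_ (ih (by omega))
    have e2 : (1 : ℝ) / q * ((1 / (x + d)) ^ 2 / 16) = 2 * d / (x + d) ^ 2 := by
      rw [hd]; field_simp; ring
    rw [e2, div_add_div _ _ (by positivity) (by positivity),
      div_le_div_iff₀ (by positivity) (by positivity)]
    have : 0 ≤ d * (x + d) * (x - d) := by
      have : 0 ≤ x - d := by linarith
      positivity
    nlinarith

theorem rate {q S : ℕ} (hq : 1 ≤ q) (hS2 : 2 ^ (256 * q ^ 2) ≤ S) {g : (Fin n → Bool) → Bool}
    (hg : Monotone g) (hS : ∀ x, sens g x ≤ S) : II g * q ≤ 6 * S := by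
  have hq1 : (1 : ℝ) ≤ q := by exact_mod_cast hq
  have h1 := PQ_iter hq _ le_rfl (1 / q) (by positivity) ((div_le_one (by positivity)).2 hq1)
    n S S S g hg hS le_rfl le_rfl
  rw [df_zero hg S hS] at h1
  have e1 : (1 : ℝ) + ((32 * q * (q - 1) : ℕ) : ℝ) / (32 * q) = q := by
    push_cast [Nat.cast_sub hq]
    field_simp
    ring
  rw [e1] at h1
  have e2 : 3 * q ^ 11 * 256 ^ (32 * q * (q - 1)) ≤ S := by
    refine le_trans ?_ hS2
    obtain ⟨r, rfl⟩ : ∃ r, q = r + 1 := ⟨q - 1, by omega⟩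
    have a1 : r + 1 ≤ 2 ^ (r + 1) := Nat.lt_two_pow_self.le
    have a2 : 3 * (r + 1) ^ 11 ≤ 2 ^ (256 * (r + 1)) := by
      calc 3 * (r + 1) ^ 11 ≤ 2 ^ 2 * (2 ^ (r + 1)) ^ 11 :=
            Nat.mul_le_mul (by norm_num) (Nat.pow_le_pow_left a1 11)
        _ = 2 ^ (2 + (r + 1) * 11) := by rw [← pow_mul, ← pow_add]
        _ ≤ _ := Nat.pow_le_pow_right (by norm_num) (by omega)
    calc 3 * (r + 1) ^ 11 * 256 ^ (32 * (r + 1) * (r + 1 - 1))
        ≤ 2 ^ (256 * (r + 1)) * (2 ^ 8) ^ (32 * (r + 1) * r) := Nat.mul_le_mul a2 le_rfl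
      _ = 2 ^ (256 * (r + 1) ^ 2) := by rw [← pow_mul, ← pow_add]; congr 1; ring
  have e3 : (3 : ℝ) * q ^ 11 * 256 ^ (32 * q * (q - 1)) ≤ S := by exact_mod_cast e2
  have e4 : (3 : ℝ) * 256 ^ (32 * q * (q - 1)) / ((1 / q) ^ 7 * (1 / q) ^ 3) * q
      = 3 * q ^ 11 * 256 ^ (32 * q * (q - 1)) := by field_simp
  have h5 := VV_le_one g
  have hS' : (0 : ℝ) ≤ S := Nat.cast_nonneg _
  have h6 : ((S : ℝ) + S) * (1 / q + 1 / q * VV g) * q = 2 * S * (1 + VV g) := by
    field_simp; ring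
  have h7 : (1 : ℝ) / q * S * q = S := by field_simp
  have h8 := mul_le_mul_of_nonneg_right h1 (show (0 : ℝ) ≤ q by positivity)
  rw [mul_zero, add_zero, add_mul, add_mul, h6, h7, e4] at h8
  nlinarith

theorem rate_sqrt {S : ℕ} {g : (Fin n → Bool) → Bool} (hg : Monotone g) (hS : ∀ x, sens g x ≤ S) :
    II g * Real.sqrt (Real.logb 2 S) ≤ 192 * S := by
  have hI : 0 ≤ II g := Finset.sum_nonneg fun i _ => infl_nonneg g i
  have hS' : (0 : ℝ) ≤ S := Nat.cast_nonneg _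
  rcases Nat.eq_zero_or_pos S with rfl | hS0
  · simp
  obtain ⟨q, hq⟩ : ∃ q, q = Nat.sqrt (Nat.log 2 S / 256) := ⟨_, rfl⟩
  have hq0 : (0 : ℝ) ≤ 16 * ((q : ℝ) + 1) := by positivity
  have hS1 : (0 : ℝ) < S := Nat.cast_pos.2 hS0
  have h1 : 2 ^ (256 * q ^ 2) ≤ S := by
    refine le_trans (Nat.pow_le_pow_right (by norm_num) ?_) (Nat.pow_log_le_self 2 hS0.ne')
    have := Nat.sqrt_le' (Nat.log 2 S / 256)
    rw [← hq] at this
    omega
  have h2 : S ≤ 2 ^ (256 * (q + 1) ^ 2) := by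
    refine (Nat.lt_pow_succ_log_self (b := 2) (by norm_num) S).le.trans
      (Nat.pow_le_pow_right (by norm_num) ?_)
    have := Nat.lt_succ_sqrt' (Nat.log 2 S / 256)
    rw [← hq] at this
    simp only [Nat.succ_eq_add_one] at this ⊢
    omega
  have h3 : Real.sqrt (Real.logb 2 S) ≤ 16 * (q + 1) := by
    rw [Real.sqrt_le_left hq0, Real.logb_le_iff_le_rpow one_lt_two hS1]
    have e : ((16 : ℝ) * (q + 1)) ^ 2 = ((256 * (q + 1) ^ 2 : ℕ) : ℝ) := by push_cast; ring
    rw [e, Real.rpow_natCast]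
    exact_mod_cast h2
  have h4 := mul_le_mul_of_nonneg_left h3 hI
  rcases Nat.eq_zero_or_pos q with h0 | h0
  · rw [h0] at h4
    have := II_le hS
    push_cast at h4
    linarith
  · have h5 := rate h0 h1 hg hS
    have h6 : II g * 1 ≤ II g * q := mul_le_mul_of_nonneg_left (Nat.one_le_cast.2 h0) hI
    clear h1 h2
    linarith

end Pool.Agent.P.MP_405cad_co
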